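import Pool.Agent.Helper49.LT.StB

/-!
# Project LT, module IFT: the solution of the chord equation near the regular position
-/

open MeasureTheory Set Filter Metric

namespace Pool.Agent.Helper83.LT

open Helper49.LT Helper97.CB

/-- the map of the chord equation -/
noncomputable def gF (q : ((ℂ × ℂ) × (ℝ × ℝ)) × (ℝ × ℝ)) : ℂ :=
  ((1 + q.1.2.1 : ℝ) : ℂ) * zh q.1.1 q.2.1 - ((1 + q.1.2.2 : ℝ) : ℂ) * zh q.1.1 q.2.2

theorem contDiff_gF : ContDiff ℝ ⊤ gF := by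
  have h1 : ContDiff ℝ ⊤ (fun q : ((ℂ × ℂ) × (ℝ × ℝ)) × (ℝ × ℝ) => zh q.1.1 q.2.1) :=
    contDiff_zh.comp (f := fun q : ((ℂ × ℂ) × (ℝ × ℝ)) × (ℝ × ℝ) => (q.1.1, q.2.1))
      (contDiff_fst.fst.prodMk contDiff_snd.fst)
  have h2 : ContDiff ℝ ⊤ (fun q : ((ℂ × ℂ) × (ℝ × ℝ)) × (ℝ × ℝ) => zh q.1.1 q.2.2) :=
    contDiff_zh.comp (f := fun q : ((ℂ × ℂ) × (ℝ × ℝ)) × (ℝ × ℝ) => (q.1.1, q.2.2))
      (contDiff_fst.fst.prodMk contDiff_snd.snd)
  have h3 : ContDiff ℝ ⊤ (fun q : ((ℂ × ℂ) × (ℝ × ℝ)) × (ℝ × ℝ) =>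
      ((1 + q.1.2.1 : ℝ) : ℂ)) :=
    Complex.ofRealCLM.contDiff.comp (f := fun q : ((ℂ × ℂ) × (ℝ × ℝ)) × (ℝ × ℝ) =>
      (1 + q.1.2.1 : ℝ)) (contDiff_const.add contDiff_fst.snd.fst)
  have h4 : ContDiff ℝ ⊤ (fun q : ((ℂ × ℂ) × (ℝ × ℝ)) × (ℝ × ℝ) =>
      ((1 + q.1.2.2 : ℝ) : ℂ)) :=
    Complex.ofRealCLM.contDiff.comp (f := fun q : ((ℂ × ℂ) × (ℝ × ℝ)) × (ℝ × ℝ) =>
      (1 + q.1.2.2 : ℝ)) (contDiff_const.add contDiff_fst.snd.snd)
  exact (h3.mul h1).sub (h4.mul h2)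

/-- the base point -/
noncomputable def u0 : ((ℂ × ℂ) × (ℝ × ℝ)) × (ℝ × ℝ) := (0, (Real.pi / 3, -(Real.pi / 3)))

theorem zh_zero (s : ℝ) : zh 0 s = ee s := by simp [zh]

theorem zd_zero (s : ℝ) : zd 0 s = Complex.I * ee s := by simp [zd]

theorem gF_u0 : gF u0 = ((Real.sqrt 3 : ℝ) : ℂ) * Complex.I := by
  unfold gF u0
  apply Complex.ext
  · simp [zh_zero, ee_re]
  · simp [zh_zero, ee_im]

/-- the derivative in the last two variables -/
noncomputable def dD : ℝ × ℝ →L[ℝ] ℂ :=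
  (ContinuousLinearMap.fst ℝ ℝ ℝ).smulRight (Complex.I * ee (Real.pi / 3)) -
    (ContinuousLinearMap.snd ℝ ℝ ℝ).smulRight (Complex.I * ee (-(Real.pi / 3)))

theorem dD_apply (y : ℝ × ℝ) : dD y =
    (y.1 : ℂ) * (Complex.I * ee (Real.pi / 3)) - (y.2 : ℂ) * (Complex.I * ee (-(Real.pi / 3))) := by
  simp [dD]

theorem norm_dD_sq (a b : ℝ) : ‖(a : ℂ) * (Complex.I * ee (Real.pi / 3)) -
    (b : ℂ) * (Complex.I * ee (-(Real.pi / 3)))‖ ^ 2 = a ^ 2 + b ^ 2 + a * b := by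
  rw [← Complex.normSq_eq_norm_sq, Complex.normSq_apply]
  have h3 : Real.sqrt 3 ^ 2 = 3 := Real.sq_sqrt (by norm_num)
  simp [ee_re, ee_im]
  ring_nf
  rw [h3]
  ring

theorem norm_dD_ge (a b : ℝ) : (|a| + |b|) / 2 ≤ ‖(a : ℂ) * (Complex.I * ee (Real.pi / 3)) -
    (b : ℂ) * (Complex.I * ee (-(Real.pi / 3)))‖ := by
  apply le_of_sq_le_sq _ (norm_nonneg _)
  rw [norm_dD_sq]
  have ha := sq_abs a
  have hb := sq_abs b
  have hab : -(|a| * |b|) ≤ a * b := by rw [← abs_mul]; exact neg_abs_le _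
  nlinarith [sq_nonneg (|a| - |b|)]

theorem dD_inj : Function.Injective dD := by
  rw [injective_iff_map_eq_zero]
  intro y hy
  rw [dD_apply] at hy
  have h := norm_dD_ge y.1 y.2
  rw [hy, norm_zero] at h
  have h1 : |y.1| = 0 := by linarith [abs_nonneg y.1, abs_nonneg y.2]
  have h2 : |y.2| = 0 := by linarith [abs_nonneg y.1, abs_nonneg y.2]
  exact Prod.ext (abs_eq_zero.1 h1) (abs_eq_zero.1 h2)

theorem dD_inv : dD.IsInvertible := by
  have hd : Module.finrank ℝ (ℝ × ℝ) = Module.finrank ℝ ℂ := by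
    rw [Complex.finrank_real_complex]; simp
  let e := LinearMap.linearEquivOfInjective (dD : ℝ × ℝ →ₗ[ℝ] ℂ) dD_inj hd
  refine ⟨e.toContinuousLinearEquiv, ?_⟩
  ext <;> rfl

theorem hasFDerivAt_slice : HasFDerivAt (fun y : ℝ × ℝ => gF (0, y)) dD
    (Real.pi / 3, -(Real.pi / 3)) := by
  have h1 : HasFDerivAt (fun y : ℝ × ℝ => zh 0 y.1)
      ((ContinuousLinearMap.fst ℝ ℝ ℝ).smulRight (zd 0 (Real.pi / 3)))
      (Real.pi / 3, -(Real.pi / 3)) := by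
    have h := HasFDerivAt.comp (g := zh 0) (f := fun y : ℝ × ℝ => y.1)
      ((Real.pi / 3, -(Real.pi / 3)) : ℝ × ℝ) (hasDerivAt_zh 0 _).hasFDerivAt hasFDerivAt_fst
    refine h.congr_fderiv ?_
    ext <;> simp
  have h2 : HasFDerivAt (fun y : ℝ × ℝ => zh 0 y.2)
      ((ContinuousLinearMap.snd ℝ ℝ ℝ).smulRight (zd 0 (-(Real.pi / 3))))
      (Real.pi / 3, -(Real.pi / 3)) := by
    have h := HasFDerivAt.comp (g := zh 0) (f := fun y : ℝ × ℝ => y.2)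
      ((Real.pi / 3, -(Real.pi / 3)) : ℝ × ℝ) (hasDerivAt_zh 0 _).hasFDerivAt hasFDerivAt_snd
    refine h.congr_fderiv ?_
    ext <;> simp
  have h3 := h1.sub h2
  have e : (fun y : ℝ × ℝ => gF (0, y)) = (fun y : ℝ × ℝ => zh 0 y.1) - fun y => zh 0 y.2 := by
    funext y
    simp [gF]
  rw [e]
  rw [zd_zero, zd_zero] at h3
  exact h3

theorem comp_inr : fderiv ℝ gF u0 ∘L .inr ℝ ((ℂ × ℂ) × (ℝ × ℝ)) (ℝ × ℝ) = dD := by
  have h1 : HasFDerivAt gF (fderiv ℝ gF u0) u0 :=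
    (contDiff_gF.differentiable (by simp)).differentiableAt.hasFDerivAt
  have h2 : HasFDerivAt (fun y : ℝ × ℝ => (((0 : (ℂ × ℂ) × (ℝ × ℝ)), y) :
      ((ℂ × ℂ) × (ℝ × ℝ)) × (ℝ × ℝ))) (.inr ℝ ((ℂ × ℂ) × (ℝ × ℝ)) (ℝ × ℝ))
      (Real.pi / 3, -(Real.pi / 3)) := hasFDerivAt_prodMk_right _ _
  have h3 := HasFDerivAt.comp (Real.pi / 3, -(Real.pi / 3)) h1 h2
  exact h3.unique hasFDerivAt_slice

/-- the quantitative bound for one branch -/
theorem branch (v : ℂ × ℂ) (ζ c s t : ℝ) (hv : ‖v‖ ≤ 1 / 300) (hζ : |ζ| ≤ 1 / 300)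
    (hs : |s - c| ≤ 1 / 10) (ht : |t - c| ≤ 1 / 10) :
    ‖((1 + ζ : ℝ) : ℂ) * (zh v s - zh v t) - ((s - t : ℝ) : ℂ) * (Complex.I * ee c)‖ ≤
      |s - t| / 7 := by
  have hd : ∀ x ∈ Icc (c - 1 / 10) (c + 1 / 10), ‖((1 + ζ : ℝ) : ℂ) * zd v x - Complex.I * ee c‖ ≤
      1 / 7 := by
    intro x hx
    have h1 := zd_sub_ee v x
    have h2 : ‖ee x - ee c‖ ≤ |x - c| := by
      have := Convex.norm_image_sub_le_of_norm_hasDerivWithin_le (f := ee)
        (f' := fun y => Complex.I * ee y) (C := 1) (s := Set.univ) (x := c) (y := x)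
        (fun y _ => (hasDerivAt_ee' y).hasDerivWithinAt)
        (fun y _ => by simp [norm_ee]) convex_univ (mem_univ _) (mem_univ _)
      simpa using this
    have h3 : |x - c| ≤ 1 / 10 := by
      rw [abs_le]; constructor <;> linarith [hx.1, hx.2]
    have e : ((1 + ζ : ℝ) : ℂ) * zd v x - Complex.I * ee c =
        ((1 + ζ : ℝ) : ℂ) * (zd v x - Complex.I * ee x) + (ζ : ℂ) * (Complex.I * ee x) +
        Complex.I * (ee x - ee c) := by
      push_cast; ring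
    have h4 : |1 + ζ| ≤ 1 + 1 / 300 := by
      have := abs_le.1 hζ
      rw [abs_le]; constructor <;> linarith
    rw [e]
    calc ‖((1 + ζ : ℝ) : ℂ) * (zd v x - Complex.I * ee x) + (ζ : ℂ) * (Complex.I * ee x) +
        Complex.I * (ee x - ee c)‖ ≤ ‖((1 + ζ : ℝ) : ℂ) * (zd v x - Complex.I * ee x)‖ +
        ‖(ζ : ℂ) * (Complex.I * ee x)‖ + ‖Complex.I * (ee x - ee c)‖ := norm_add₃_le
      _ = |1 + ζ| * ‖zd v x - Complex.I * ee x‖ + |ζ| + ‖ee x - ee c‖ := by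
          rw [norm_mul, norm_mul, norm_mul, norm_mul, Complex.norm_real, Complex.norm_real,
            Complex.norm_I, norm_ee]
          simp [Real.norm_eq_abs]
      _ ≤ (1 + 1 / 300) * (6 * (1 / 300)) + 1 / 300 + 1 / 10 := by
          have h5 : ‖zd v x - Complex.I * ee x‖ ≤ 6 * (1 / 300) := by linarith
          gcongr
          linarith
      _ ≤ 1 / 7 := by norm_num
  have key := Convex.norm_image_sub_le_of_norm_hasDerivWithin_le
    (f := fun x : ℝ => ((1 + ζ : ℝ) : ℂ) * zh v x - (x : ℂ) * (Complex.I * ee c))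
    (f' := fun x : ℝ => ((1 + ζ : ℝ) : ℂ) * zd v x - Complex.I * ee c) (C := 1 / 7)
    (s := Icc (c - 1 / 10) (c + 1 / 10)) (x := t) (y := s) ?_ hd (convex_Icc _ _) ?_ ?_
  · have e : ((1 + ζ : ℝ) : ℂ) * (zh v s - zh v t) - ((s - t : ℝ) : ℂ) * (Complex.I * ee c) =
        (((1 + ζ : ℝ) : ℂ) * zh v s - (s : ℂ) * (Complex.I * ee c)) -
        (((1 + ζ : ℝ) : ℂ) * zh v t - (t : ℂ) * (Complex.I * ee c)) := by
      push_cast; ring
    rw [e]
    refine key.trans ?_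
    rw [Real.norm_eq_abs]
    linarith
  · intro x _
    have h1 := (hasDerivAt_zh v x).const_mul ((1 + ζ : ℝ) : ℂ)
    have h2 : HasDerivAt (fun x : ℝ => (x : ℂ) * (Complex.I * ee c)) (Complex.I * ee c) x := by
      have := (Complex.ofRealCLM.hasDerivAt (x := x)).mul_const (Complex.I * ee c)
      simpa using this
    exact (h1.sub h2).hasDerivWithinAt
  · have := abs_le.1 ht
    constructor <;> linarith
  · have := abs_le.1 hs
    constructor <;> linarith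

/-- uniqueness of the solution of the chord equation -/
theorem uniq_aux (p : (ℂ × ℂ) × (ℝ × ℝ)) (hp : ‖p‖ ≤ 1 / 300) (s s' t t' : ℝ)
    (hs : |s - Real.pi / 3| ≤ 1 / 10) (hs' : |s' + Real.pi / 3| ≤ 1 / 10)
    (ht : |t - Real.pi / 3| ≤ 1 / 10) (ht' : |t' + Real.pi / 3| ≤ 1 / 10)
    (h : ChEq p s s') (h' : ChEq p t t') : s = t ∧ s' = t' := by
  have hv : ‖p.1‖ ≤ 1 / 300 := (norm_fst_le p).trans hp
  have hz1 : |p.2.1| ≤ 1 / 300 := (norm_fst_le p.2).trans ((norm_snd_le p).trans hp)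
  have hz2 : |p.2.2| ≤ 1 / 300 := (norm_snd_le p.2).trans ((norm_snd_le p).trans hp)
  have b1 := branch p.1 p.2.1 (Real.pi / 3) s t hv hz1 hs ht
  have b2 := branch p.1 p.2.2 (-(Real.pi / 3)) s' t' hv hz2
    (by rwa [sub_neg_eq_add]) (by rwa [sub_neg_eq_add])
  have h1 := norm_dD_ge (s - t) (s' - t')
  unfold ChEq at h h'
  have e : ((s - t : ℝ) : ℂ) * (Complex.I * ee (Real.pi / 3)) -
      ((s' - t' : ℝ) : ℂ) * (Complex.I * ee (-(Real.pi / 3))) =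
      (((1 + p.2.2 : ℝ) : ℂ) * (zh p.1 s' - zh p.1 t') -
        ((s' - t' : ℝ) : ℂ) * (Complex.I * ee (-(Real.pi / 3)))) -
      (((1 + p.2.1 : ℝ) : ℂ) * (zh p.1 s - zh p.1 t) -
        ((s - t : ℝ) : ℂ) * (Complex.I * ee (Real.pi / 3))) := by
    linear_combination h - h'
  rw [e] at h1
  have h2 := h1.trans (norm_sub_le _ _)
  have h3 : |s - t| = 0 := by linarith [abs_nonneg (s - t), abs_nonneg (s' - t')]
  have h4 : |s' - t'| = 0 := by linarith [abs_nonneg (s - t), abs_nonneg (s' - t')]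
  exact ⟨sub_eq_zero.1 (abs_eq_zero.1 h3), sub_eq_zero.1 (abs_eq_zero.1 h4)⟩

theorem hIFT : StIft := by
  have cdf : ContDiffAt ℝ 6 gF u0 := (contDiff_gF.of_le le_top).contDiffAt
  have if2 : (fderiv ℝ gF u0 ∘L .inr ℝ ((ℂ × ℂ) × (ℝ × ℝ)) (ℝ × ℝ)).IsInvertible := by
    rw [comp_inr]; exact dD_inv
  have pn : (6 : WithTop ℕ∞) ≠ 0 := by norm_num
  set ψ := cdf.implicitFunction pn if2 with hψ
  have v0 : ψ 0 = (Real.pi / 3, -(Real.pi / 3)) := cdf.implicitFunction_apply_self pn if2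
  have ev : ∀ᶠ x in nhds (0 : (ℂ × ℂ) × (ℝ × ℝ)), gF (x, ψ x) = gF u0 :=
    cdf.eventually_apply_implicitFunction pn if2
  have cd : ContDiffAt ℝ 6 ψ 0 := cdf.contDiffAt_implicitFunction pn if2
  have cde : ∀ᶠ x in nhds (0 : (ℂ × ℂ) × (ℝ × ℝ)), ContDiffAt ℝ 6 ψ x := cd.eventually (by simp)
  have c1 : ∀ᶠ x in nhds (0 : (ℂ × ℂ) × (ℝ × ℝ)), |(ψ x).1 - Real.pi / 3| < 1 / 10 := by
    have h : Filter.Tendsto (fun x => |(ψ x).1 - Real.pi / 3|) (nhds 0)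
        (nhds |(ψ 0).1 - Real.pi / 3|) :=
      ((cd.continuousAt.fst).sub continuousAt_const).abs
    rw [v0, sub_self, abs_zero] at h
    exact h.eventually_lt_const (by norm_num)
  have c2 : ∀ᶠ x in nhds (0 : (ℂ × ℂ) × (ℝ × ℝ)), |(ψ x).2 + Real.pi / 3| < 1 / 10 := by
    have h : Filter.Tendsto (fun x => |(ψ x).2 + Real.pi / 3|) (nhds 0)
        (nhds |(ψ 0).2 + Real.pi / 3|) :=
      ((cd.continuousAt.snd).add continuousAt_const).abs
    rw [v0] at h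
    simp only [neg_add_cancel, abs_zero] at h
    exact h.eventually_lt_const (by norm_num)
  obtain ⟨r, hr, hball⟩ := Metric.eventually_nhds_iff_ball.1 (ev.and (cde.and (c1.and c2)))
  have hle : ∀ p ∈ ball (0 : (ℂ × ℂ) × (ℝ × ℝ)) (min r (1 / 300)), p ∈ ball 0 r ∧
      ‖p‖ ≤ 1 / 300 := by
    intro p hp
    rw [mem_ball_zero_iff] at hp ⊢
    exact ⟨hp.trans_le (min_le_left _ _), (hp.trans_le (min_le_right _ _)).le⟩
  have heq : ∀ p ∈ ball (0 : (ℂ × ℂ) × (ℝ × ℝ)) (min r (1 / 300)),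
      ChEq p (ψ p).1 (ψ p).2 := by
    intro p hp
    have h := (hball p (hle p hp).1).1
    rw [gF_u0] at h
    exact h
  refine ⟨min r (1 / 300), fun p => (ψ p).1, fun p => (ψ p).2, ?_⟩
  refine { pos := lt_min hr (by norm_num), cp := ?_, cm := ?_, vp := ?_, vm := ?_, eqn := heq, near := ?_, uniq := ?_ }
  · intro p hp
    exact ((hball p (hle p hp).1).2.1.fst).contDiffWithinAt
  · intro p hp
    exact ((hball p (hle p hp).1).2.1.snd).contDiffWithinAt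
  · simp [v0]
  · simp [v0]
  · intro p hp
    have h := (hball p (hle p hp).1).2.2
    exact ⟨h.1.le, h.2.le⟩
  · intro p hp s s' hs hs' hch
    have h := (hball p (hle p hp).1).2.2
    exact uniq_aux p (hle p hp).2 s s' _ _ hs hs' h.1.le h.2.le hch (heq p hp)

end Pool.Agent.Helper83.LT
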